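import Pool.Agent.Helper51.Hart.Defs2

set_option autoImplicit false

noncomputable section

open Set Metric Complex MeasureTheory

namespace Pool.Helper51.Hart

variable {ρ : ℂ × ℂ → ℝ}

private theorem h90_kernel (n : ℕ) (θ : ℝ) : (((1 + Real.cos θ) ^ n : ℝ) : ℂ) =
    ∑ j ∈ Finset.range (2 * n + 1), ((2 : ℂ) ^ n)⁻¹ * ((2 * n).choose j : ℂ) *
      Complex.exp (-(((n : ℂ) - (j : ℂ)) * θ * I)) := by
  have hE : Complex.exp (θ * I) ≠ 0 := Complex.exp_ne_zero _
  have h1 : ((1 + Real.cos θ : ℝ) : ℂ) =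
      (Complex.exp (θ * I) + 1) ^ 2 * (2 * Complex.exp (θ * I))⁻¹ := by
    push_cast
    have h2 : Complex.cos θ = (Complex.exp (θ * I) + (Complex.exp (θ * I))⁻¹) / 2 := by
      rw [Complex.cos, ← Complex.exp_neg, neg_mul]
    rw [h2]
    field_simp
    ring
  have h3 : (((1 + Real.cos θ) ^ n : ℝ) : ℂ) =
      (Complex.exp (θ * I) + 1) ^ (2 * n) * ((2 : ℂ) ^ n)⁻¹ * ((Complex.exp (θ * I)) ^ n)⁻¹ := by
    rw [Complex.ofReal_pow, h1, mul_pow, ← pow_mul, inv_pow, mul_pow, mul_inv, mul_assoc]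
  rw [h3, add_pow, Finset.sum_mul, Finset.sum_mul]
  apply Finset.sum_congr rfl
  intro j _
  have h4 : Complex.exp (-(((n : ℂ) - (j : ℂ)) * θ * I)) =
      Complex.exp (θ * I) ^ j * ((Complex.exp (θ * I)) ^ n)⁻¹ := by
    rw [← Complex.exp_nat_mul, ← Complex.exp_nat_mul, ← Complex.exp_neg, ← Complex.exp_add]
    congr 1
    ring
  rw [h4, one_pow]
  ring

private theorem h90_period (g : ℂ × ℂ → ℂ) (k : ℤ) (z w : ℂ) :
    ∫ θ in (-Real.pi)..Real.pi,
      g (Complex.exp (θ * I) * z, w) * Complex.exp (-(k * θ * I)) =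
      2 * Real.pi * fc g k z w := by
  have hper : Function.Periodic (fun θ : ℝ =>
      g (Complex.exp (θ * I) * z, w) * Complex.exp (-(k * θ * I))) (2 * Real.pi) := by
    intro θ
    have h1 : Complex.exp (((θ + 2 * Real.pi : ℝ) : ℂ) * I) = Complex.exp (θ * I) := by
      have : (((θ + 2 * Real.pi : ℝ) : ℂ) * I) = θ * I + 2 * Real.pi * I := by push_cast; ring
      rw [this, Complex.exp_periodic]
    have h2 : Complex.exp (-(k * ((θ + 2 * Real.pi : ℝ) : ℂ) * I)) =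
        Complex.exp (-(k * θ * I)) := by
      have : -(k * ((θ + 2 * Real.pi : ℝ) : ℂ) * I) =
          -(k * θ * I) + ((-k : ℤ) : ℂ) * (2 * Real.pi * I) := by push_cast; ring
      rw [this, Complex.exp_add, Complex.exp_int_mul_two_pi_mul_I, mul_one]
    simp only [h1, h2]
  have h := hper.intervalIntegral_add_eq (-Real.pi) 0
  have e1 : -Real.pi + 2 * Real.pi = Real.pi := by ring
  rw [e1, zero_add] at h
  rw [h, fc]
  have : (2 * Real.pi : ℂ) ≠ 0 := by
    have := Real.pi_ne_zero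
    exact mul_ne_zero two_ne_zero (by exact_mod_cast this)
  rw [← mul_assoc, mul_inv_cancel₀ this, one_mul]

/-- HT-25 -/
theorem trig_approx (hf : HFacts ρ) {g : ℂ × ℂ → ℂ} (hg : Continuous g) {ε : ℝ} (hε : 0 < ε) :
    ∃ (s : Finset ℤ) (c : ℤ → ℂ), ∀ z w, ρ (z, w) ≤ 0 →
      ‖g (z, w) - ∑ k ∈ s, c k * fc g k z w‖ < ε := by
  let K : Set (ℂ × ℂ) := {p | ρ p ≤ 0}
  have : CompactSpace K := isCompact_iff_compactSpace.1 hf.cpt
  let G0 : C(ℝ × K, ℂ) :=
    ⟨fun q => g (Complex.exp (q.1 * I) * q.2.1.1, q.2.1.2), by fun_prop⟩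
  let G : C(ℝ, C(K, ℂ)) := G0.curry
  have hG : ∀ (θ : ℝ) (p : K), G θ p = g (Complex.exp (θ * I) * p.1.1, p.1.2) := fun _ _ => rfl
  have hpi := Real.pi_pos
  have hlim := tendsto_setIntegral_pow_smul_of_unique_maximum_of_isCompact_of_continuousOn
    (μ := (volume : Measure ℝ)) (s := Icc (-Real.pi) Real.pi) (x₀ := (0 : ℝ))
    (c := fun θ => 1 + Real.cos θ) (g := fun θ => G θ) isCompact_Icc
    (by fun_prop)
    (by
      intro y hy hy0
      have h1 : Real.cos y ≠ 1 := by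
        intro h
        exact hy0 ((Real.cos_eq_one_iff_of_lt_of_lt (by linarith [hy.1]) (by linarith [hy.2])).1 h)
      have h2 : Real.cos y < 1 := lt_of_le_of_ne (Real.cos_le_one y) h1
      simp only [Real.cos_zero]
      linarith)
    (by intro x _; linarith [Real.neg_one_le_cos x])
    (by simp only [Real.cos_zero]; norm_num)
    (by
      rw [interior_Icc]
      exact subset_closure ⟨by linarith, by linarith⟩)
    (by fun_prop)
  obtain ⟨n, hn⟩ := ((Metric.tendsto_nhds.1 hlim) ε hε).exists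
  rw [dist_eq_norm] at hn
  set Z : ℝ := ∫ θ in Icc (-Real.pi) Real.pi, (1 + Real.cos θ) ^ n with hZ
  refine ⟨(Finset.range (2 * n + 1)).image (fun j : ℕ => (n : ℤ) - (j : ℤ)),
    fun k => (Z : ℂ)⁻¹ * (((2 : ℂ) ^ n)⁻¹ * ((2 * n).choose ((n : ℤ) - k).toNat : ℂ)) *
      (2 * Real.pi), ?_⟩
  intro z w hzw
  let p : K := ⟨(z, w), hzw⟩
  have hcont : ContinuousOn (fun θ : ℝ => ((1 + Real.cos θ) ^ n : ℝ) • G θ)
      (Icc (-Real.pi) Real.pi) := by fun_prop
  have hev : (∫ θ in Icc (-Real.pi) Real.pi, ((1 + Real.cos θ) ^ n : ℝ) • G θ) p =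
      ∫ θ in Icc (-Real.pi) Real.pi, (((1 + Real.cos θ) ^ n : ℝ) : ℂ) *
        g (Complex.exp (θ * I) * z, w) := by
    have h1 := (ContinuousMap.evalCLM ℝ p : C(K, ℂ) →L[ℝ] ℂ).integral_comp_comm
      (hcont.integrableOn_compact (μ := (volume : Measure ℝ)) isCompact_Icc)
    simp only [ContinuousMap.evalCLM_apply] at h1
    rw [← h1]
    apply integral_congr_ae
    filter_upwards with θ
    rw [ContinuousMap.smul_apply, hG, Complex.real_smul]
  have hsum : ∫ θ in Icc (-Real.pi) Real.pi, (((1 + Real.cos θ) ^ n : ℝ) : ℂ) *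
        g (Complex.exp (θ * I) * z, w) =
      ∑ j ∈ Finset.range (2 * n + 1), ((2 : ℂ) ^ n)⁻¹ * ((2 * n).choose j : ℂ) *
        (2 * Real.pi * fc g ((n : ℤ) - (j : ℤ)) z w) := by
    rw [integral_Icc_eq_integral_Ioc, ← intervalIntegral.integral_of_le (by linarith)]
    have h2 : ∀ θ : ℝ, (((1 + Real.cos θ) ^ n : ℝ) : ℂ) * g (Complex.exp (θ * I) * z, w) =
        ∑ j ∈ Finset.range (2 * n + 1), ((2 : ℂ) ^ n)⁻¹ * ((2 * n).choose j : ℂ) *
          (g (Complex.exp (θ * I) * z, w) *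
            Complex.exp (-((((n : ℤ) - (j : ℤ) : ℤ) : ℂ) * θ * I))) := by
      intro θ
      rw [h90_kernel, Finset.sum_mul]
      apply Finset.sum_congr rfl
      intro j _
      push_cast
      ring
    simp only [h2]
    rw [intervalIntegral.integral_finsetSum]
    · apply Finset.sum_congr rfl
      intro j _
      rw [intervalIntegral.integral_const_mul, h90_period]
    · intro j _
      apply Continuous.intervalIntegrable
      fun_prop
  have hval : ((Z)⁻¹ • ∫ θ in Icc (-Real.pi) Real.pi, ((1 + Real.cos θ) ^ n : ℝ) • G θ) p =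
      ∑ k ∈ (Finset.range (2 * n + 1)).image (fun j : ℕ => (n : ℤ) - (j : ℤ)),
        (Z : ℂ)⁻¹ * (((2 : ℂ) ^ n)⁻¹ * ((2 * n).choose ((n : ℤ) - k).toNat : ℂ)) *
          (2 * Real.pi) * fc g k z w := by
    rw [ContinuousMap.smul_apply, hev, hsum, Finset.sum_image]
    · rw [Complex.real_smul, Finset.mul_sum]
      apply Finset.sum_congr rfl
      intro j _
      have e : ((n : ℤ) - ((n : ℤ) - (j : ℤ))).toNat = j := by
        rw [sub_sub_cancel]; exact Int.toNat_natCast j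
      rw [e]
      push_cast
      ring
    · intro a _ b _ hab
      simpa using hab
  have h0 : G 0 p = g (z, w) := by
    rw [hG]
    simp [p]
  have hfin : ‖((Z)⁻¹ • ∫ θ in Icc (-Real.pi) Real.pi, ((1 + Real.cos θ) ^ n : ℝ) • G θ) p -
      G 0 p‖ < ε := by
    refine lt_of_le_of_lt ?_ hn
    exact ContinuousMap.norm_coe_le_norm
      ((Z)⁻¹ • (∫ θ in Icc (-Real.pi) Real.pi, ((1 + Real.cos θ) ^ n : ℝ) • G θ) - G 0) p
  rw [hval, h0, norm_sub_rev] at hfin
  exact hfin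

end Pool.Helper51.Hart
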